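import Pool.Agent.H31.MP.Basic

/-!
# Row BA of the board `mtp_modules`: one tuple, all inequalities
-/

set_option autoImplicit false

open Finset Real ArithmeticFunction
open scoped Nat

namespace Pool.Agent.H23.MTP

open Pool.Agent.H31.MP
open Pool.Agent.H30.BV (NX wx WX)

theorem ba_ar1 {κ SM kE SS θ : ℝ} (hκ : 0 < κ) (hκ8 : κ ≤ 1 / 8) (hθ1 : θ ≤ κ / 40)
    (hSM0 : 0 < SM) (hE : kE ≤ θ * (SM / 2)) (hlow : (1 - κ / 20) * SM - kE ≤ SS) :
    SM ≤ (1 + κ / 8) * SS ∧ 0 < SS ∧ SM / 2 ≤ SS := by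
  have e1 : θ * (SM / 2) ≤ κ / 40 * SM := by
    have e2 : θ * (SM / 2) ≤ κ / 40 * (SM / 2) :=
      mul_le_mul_of_nonneg_right hθ1 (by linarith)
    have e3 : κ / 40 * (SM / 2) ≤ κ / 40 * SM :=
      mul_le_mul_of_nonneg_left (by linarith) (by positivity)
    exact e2.trans e3
  have e4 : (1 - 3 * κ / 40) * SM = (1 - κ / 20) * SM - κ / 40 * SM := by ring
  have hlow2 : (1 - 3 * κ / 40) * SM ≤ SS := by
    rw [e4]
    linarith
  refine ⟨?_, ?_, ?_⟩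
  · have e1 : (1 + κ / 8) * ((1 - 3 * κ / 40) * SM) ≤ (1 + κ / 8) * SS :=
      mul_le_mul_of_nonneg_left hlow2 (by positivity)
    have e3 : (1 + κ / 8) * ((1 - 3 * κ / 40) * SM) =
        SM + (κ / 20 - 3 * κ ^ 2 / 320) * SM := by ring
    have e4 : 0 ≤ κ / 20 - 3 * κ ^ 2 / 320 := by nlinarith
    have e5 := mul_nonneg e4 hSM0.le
    linarith
  · refine lt_of_lt_of_le ?_ hlow2
    have : 0 < 1 - 3 * κ / 40 := by linarith
    positivity
  · refine le_trans ?_ hlow2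
    have e6 : (1 / 2 : ℝ) * SM ≤ (1 - 3 * κ / 40) * SM :=
      mul_le_mul_of_nonneg_right (by linarith) hSM0.le
    linarith

theorem ba_ar2 {κ SM kE SS θ t u : ℝ} (hκ : 0 < κ) (hκ8 : κ ≤ 1 / 8) (hθ : θ ≤ 18 * κ * t)
    (hu : t ≤ u) (hu0 : 0 < u) (hSS : 0 < SS) (hSM : SM ≤ (1 + κ / 8) * SS) (hE : kE ≤ θ * SS) :
    (4 + 80 * κ) * u * SM + kE ≤ (4 + 100 * κ) * u * SS := by
  have e2 : (4 + 80 * κ) * u * SM ≤ (4 + 80 * κ) * u * ((1 + κ / 8) * SS) :=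
    mul_le_mul_of_nonneg_left hSM (by positivity)
  have e3 : θ * SS ≤ 18 * κ * u * SS := by
    apply mul_le_mul_of_nonneg_right _ hSS.le
    refine hθ.trans ?_
    exact mul_le_mul_of_nonneg_left hu (by positivity)
  have e5 : (4 + 100 * κ) * u * SS - ((4 + 80 * κ) * u * ((1 + κ / 8) * SS) +
      18 * κ * u * SS) = (κ * (u * SS)) * (3 / 2 - 10 * κ) := by ring
  have e6 : 0 ≤ (κ * (u * SS)) * (3 / 2 - 10 * κ) := by
    apply mul_nonneg (by positivity)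
    linarith
  linarith

theorem ba_ar3 {κ SM kE SS θ t u : ℝ} (hκ : 0 < κ) (hκ8 : κ ≤ 1 / 8) (hθ : θ ≤ 15 * t ^ 2)
    (hu : t ^ 2 ≤ u) (hu0 : 0 < u) (hSS : 0 < SS) (hSM : SM ≤ (1 + κ / 8) * SS)
    (hE : kE ≤ θ * SS) : 280 * u * SM + kE ≤ 300 * u * SS := by
  have e2 : 280 * u * SM ≤ 280 * u * ((1 + κ / 8) * SS) :=
    mul_le_mul_of_nonneg_left hSM (by positivity)
  have e3 : θ * SS ≤ 15 * u * SS := by
    apply mul_le_mul_of_nonneg_right _ hSS.le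
    refine hθ.trans ?_
    exact mul_le_mul_of_nonneg_left hu (by positivity)
  have e5 : 300 * u * SS - (280 * u * ((1 + κ / 8) * SS) + 15 * u * SS) =
      (u * SS) * (5 - 35 * κ) := by ring
  have e6 : 0 ≤ (u * SS) * (5 - 35 * κ) := by
    apply mul_nonneg (by positivity)
    linarith
  linarith

theorem pf_BA (hB1 : T_B1) (hW2 : T_W2) (hX3 : T_X3) (hX4 : T_X4) : T_BA := by
  classical
  intro M κ hM hκ hκ8
  obtain ⟨k, hk, hB⟩ := hB1 (4 * M) κ (by linarith) hκ hκ8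
  obtain ⟨b2, h2⟩ := hW2 k (κ / 20) hk (by positivity)
  obtain ⟨b3, y3, h3⟩ := hX3 k κ hk hκ hκ8
  obtain ⟨b4, y4, h4⟩ := hX4 k κ hk hκ hκ8
  obtain ⟨y₀, δ, c, C, hy, hky, hδ, hδ1, hδb, hc, hC, Z1, hZ1⟩ :=
    hB (max b2 (max b3 b4)) (max y3 y4)
  have hb2 : (b2 : ℝ) ≤ (max b2 (max b3 b4) : ℕ) := by exact_mod_cast le_max_left _ _
  have hb3 : (b3 : ℝ) ≤ (max b2 (max b3 b4) : ℕ) := by
    exact_mod_cast (le_max_left _ _).trans (le_max_right _ _)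
  have hb4 : (b4 : ℝ) ≤ (max b2 (max b3 b4) : ℕ) := by
    exact_mod_cast (le_max_right _ _).trans (le_max_right _ _)
  have hd2 : δ * (4 * b2 + 6) ≤ κ / 4 :=
    (mul_le_mul_of_nonneg_left (by linarith) hδ.le).trans hδb
  have hd3 : δ * (4 * b3 + 6) ≤ κ / 4 :=
    (mul_le_mul_of_nonneg_left (by linarith) hδ.le).trans hδb
  have hd4 : δ * (4 * b4 + 6) ≤ κ / 4 :=
    (mul_le_mul_of_nonneg_left (by linarith) hδ.le).trans hδb
  have hk0 : (0 : ℝ) < k := by exact_mod_cast hk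
  refine ⟨k, y₀, δ, c, C, hk, by omega, hδ, hδ1, hc, hC, ?_⟩
  intro t ht
  obtain ⟨X2, hX2'⟩ := h2 y₀ (k + 4) δ C hky hδ (by linarith) hC.le
  obtain ⟨X3, hX3'⟩ := h3 y₀ (k + 4) δ C ((le_max_left _ _).trans hy) hδ (by linarith) hC.le t ht
  obtain ⟨X4, hX4'⟩ := h4 y₀ (k + 4) δ C ((le_max_right _ _).trans hy) hδ (by linarith) hC.le t ht
  -- the size of `log Z`
  set θ : ℝ := min (κ / 40) (min (18 * κ * t) (15 * t ^ 2)) with hθ
  have hθ0 : 0 < θ := by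
    rw [hθ]
    exact lt_min (by positivity) (lt_min (by positivity) (by positivity))
  have hθ1 : θ ≤ κ / 40 := min_le_left _ _
  have hθ2 : θ ≤ 18 * κ * t := (min_le_right _ _).trans (min_le_left _ _)
  have hθ3 : θ ≤ 15 * t ^ 2 := (min_le_right _ _).trans (min_le_right _ _)
  set L0 : ℝ := max 1 (k / (2 * c * θ)) with hL0
  refine ⟨max (max Z1 (max X2 (max X3 X4))) (Real.exp L0), ?_⟩
  intro Z hZ
  have hZ1' : Z1 ≤ Z := (le_max_left _ _).trans ((le_max_left _ _).trans hZ)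
  have hZm : max X2 (max X3 X4) ≤ Z := (le_max_right _ _).trans ((le_max_left _ _).trans hZ)
  have hZ2 : X2 ≤ Z := (le_max_left _ _).trans hZm
  have hZ3 : X3 ≤ Z := (le_max_left _ _).trans ((le_max_right _ _).trans hZm)
  have hZ4 : X4 ≤ Z := (le_max_right _ _).trans ((le_max_right _ _).trans hZm)
  have hZe : Real.exp L0 ≤ Z := (le_max_right _ _).trans hZ
  have hZpos : 0 < Z := (Real.exp_pos _).trans_le hZe
  set L : ℝ := Real.log Z with hL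
  have hL0L : L0 ≤ L := (Real.le_log_iff_exp_le hZpos).2 hZe
  have hL1 : 1 ≤ L := (le_max_left _ _).trans hL0L
  have hLk : k / (2 * c * θ) ≤ L := (le_max_right _ _).trans hL0L
  have hLpos : 0 < L := by linarith
  have hZge1 : 1 ≤ Z := by
    calc (1 : ℝ) ≤ L0 + 1 := by
          have : (1 : ℝ) ≤ L0 := le_max_left _ _
          linarith
      _ ≤ Real.exp L0 := Real.add_one_le_exp _
      _ ≤ Z := hZe
  set Er : ℝ := Z / L ^ (k + 4) with hEr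
  -- `k Er ≤ 2 c θ Z / L ^ k`
  have hErb : k * Er ≤ θ * (2 * c * Z / L ^ k) := by
    have e1 : (k : ℝ) ≤ 2 * c * θ * L := by
      rw [div_le_iff₀ (by positivity)] at hLk
      linarith
    have e2 : L ≤ L ^ 4 := le_self_pow₀ hL1 (by norm_num)
    have e3 : (k : ℝ) ≤ 2 * c * θ * L ^ 4 := e1.trans (mul_le_mul_of_nonneg_left e2 (by positivity))
    have e4 : θ * (2 * c * Z / L ^ k) = (2 * c * θ * L ^ 4) * Er := by
      rw [hEr, pow_add]
      field_simp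
    rw [e4]
    exact mul_le_mul_of_nonneg_right e3 (by positivity)
  obtain ⟨l, hl, hlh⟩ := hZ1 Z hZ1'
  refine ⟨l, ?_⟩
  intro h hh
  obtain ⟨hLam, htn, hsq, hMM⟩ := hlh h hh
  have hh1 := Finset.mem_filter.1 hh
  have hinj : Function.Injective h := hh1.2
  have hh2 : ∀ j, (h j : ℝ) ≤ κ * L ∧ primorial y₀ ∣ h j := by
    intro j
    have e1 := Finset.mem_filter.1 ((Fintype.mem_piFinset.1 hh1.1) j)
    refine ⟨?_, e1.2⟩
    have e2 : h j ≤ ⌊κ * Real.log Z⌋₊ := Nat.lt_succ_iff.1 (Finset.mem_range.1 e1.1)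
    calc (h j : ℝ) ≤ (⌊κ * Real.log Z⌋₊ : ℝ) := by exact_mod_cast e2
      _ ≤ κ * L := Nat.floor_le (by positivity)
  have hh3 : ∀ j, (h j : ℝ) ≤ 10 * L := fun j => (hh2 j).1.trans (by nlinarith)
  have hY1 : 1 ≤ Z ^ (κ / 4) := Real.one_le_rpow hZge1 (by positivity)
  have hY2 : Z ^ (κ / 4) ≤ Z ^ (1 / 8 : ℝ) :=
    Real.rpow_le_rpow_of_exponent_le hZge1 (by linarith)
  have hW := fun i => hX2' Z hZ2 (Z ^ (κ / 4)) h i l hinj hh3 (fun j => (hh2 j).2) hY1 hY2 hl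
  set SM : ℝ := ∑ i, MM Z y₀ (Z ^ δ) (Z ^ (κ / 4)) l h i with hSM
  set SS : ℝ := ∑ i, S2 Z y₀ (Z ^ δ) (Z ^ (κ / 4)) l h i with hSS
  set tt : ℝ := tn Z y₀ (Z ^ δ) (Z ^ (κ / 4)) l h with htt
  have htt0 : 0 < tt := lt_of_lt_of_le (by positivity) htn
  have hSMtt : 4 * tt ≤ SM := by
    refine le_trans ?_ hMM
    nlinarith
  have hSM0 : 0 < SM := by linarith
  have hErSM : k * Er ≤ θ * (SM / 2) := by
    refine hErb.trans (mul_le_mul_of_nonneg_left ?_ hθ0.le)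
    have e1 : 2 * c * Z / L ^ k = 2 * (c * Z / L ^ k) := by ring
    rw [e1]
    linarith
  have hlow : (1 - κ / 20) * SM - k * Er ≤ SS := by
    have e1 : ∑ i : Fin k, ((1 - κ / 20) * MM Z y₀ (Z ^ δ) (Z ^ (κ / 4)) l h i - Er) ≤ SS :=
      Finset.sum_le_sum fun i _ => (hW i).1
    rw [Finset.sum_sub_distrib, ← Finset.mul_sum, Finset.sum_const, Finset.card_univ,
      Fintype.card_fin, nsmul_eq_mul] at e1
    exact e1
  obtain ⟨hSMSS, hSS0, hSM2⟩ := ba_ar1 hκ hκ8 hθ1 hSM0 hErSM hlow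
  have hErSS : k * Er ≤ θ * SS := hErSM.trans (mul_le_mul_of_nonneg_left hSM2 hθ0.le)
  refine ⟨hLam, htn, hsq, ?_, ?_, ?_⟩
  · -- the primes
    have e1 : 4 * M * tt ≤ SM := hMM
    have e2 : M * tt ≤ SM / 4 := by linarith
    linarith
  · intro a m ha ham htm
    have hm0 : (0 : ℝ) ≤ m := Nat.cast_nonneg m
    have e1 : ∑ e ∈ Ico a (a + m), ∑ i, S3 Z y₀ (Z ^ δ) (Z ^ (κ / 4)) l h i e ≤
        (4 + 80 * κ) * (m / L) * SM + k * Er := by
      rw [Finset.sum_comm]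
      have e2 : ∑ i : Fin k, ∑ e ∈ Ico a (a + m), S3 Z y₀ (Z ^ δ) (Z ^ (κ / 4)) l h i e ≤
          ∑ i : Fin k, ((4 + 80 * κ) * (m / L) * MM Z y₀ (Z ^ δ) (Z ^ (κ / 4)) l h i + Er) :=
        Finset.sum_le_sum fun i _ => hX3' Z hZ3 (Z ^ (κ / 4)) h i l a m hinj (fun j => (hh2 j).1)
          (fun j => (hh2 j).2) hY1 le_rfl hl ha ham htm
      rw [Finset.sum_add_distrib, ← Finset.mul_sum, Finset.sum_const, Finset.card_univ,
        Fintype.card_fin, nsmul_eq_mul] at e2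
      exact e2
    refine e1.trans ?_
    have hu : t ≤ m / L := by
      rw [le_div_iff₀ hLpos]
      exact htm
    exact ba_ar2 hκ hκ8 hθ2 hu (lt_of_lt_of_le ht hu) hSS0 hSMSS hErSS
  · intro a m b m' ha hb ham hbm htm htm'
    have hm0 : (0 : ℝ) ≤ m := Nat.cast_nonneg m
    have e1 : ∑ e ∈ Ico a (a + m), ∑ s ∈ Ico b (b + m'),
        ∑ i, S4 Z y₀ (Z ^ δ) (Z ^ (κ / 4)) l h i e (e + s) ≤
        280 * (m * m' / L ^ 2) * SM + k * Er := by
      have e0 : ∑ e ∈ Ico a (a + m), ∑ s ∈ Ico b (b + m'),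
          ∑ i, S4 Z y₀ (Z ^ δ) (Z ^ (κ / 4)) l h i e (e + s) =
          ∑ i, ∑ e ∈ Ico a (a + m), ∑ s ∈ Ico b (b + m'),
            S4 Z y₀ (Z ^ δ) (Z ^ (κ / 4)) l h i e (e + s) := by
        rw [Finset.sum_comm (s := univ)]
        refine Finset.sum_congr rfl fun e _ => ?_
        rw [Finset.sum_comm]
      rw [e0]
      have e2 : ∑ i : Fin k, ∑ e ∈ Ico a (a + m), ∑ s ∈ Ico b (b + m'),
            S4 Z y₀ (Z ^ δ) (Z ^ (κ / 4)) l h i e (e + s) ≤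
          ∑ i : Fin k, (280 * (m * m' / L ^ 2) * MM Z y₀ (Z ^ δ) (Z ^ (κ / 4)) l h i + Er) :=
        Finset.sum_le_sum fun i _ => hX4' Z hZ4 (Z ^ (κ / 4)) h i l a m b m' hinj
          (fun j => (hh2 j).1) (fun j => (hh2 j).2) hY1 le_rfl hl ha hb ham hbm htm htm'
      rw [Finset.sum_add_distrib, ← Finset.mul_sum, Finset.sum_const, Finset.card_univ,
        Fintype.card_fin, nsmul_eq_mul] at e2
      exact e2
    refine e1.trans ?_
    have hu : t ^ 2 ≤ m * m' / L ^ 2 := by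
      rw [le_div_iff₀ (by positivity)]
      calc t ^ 2 * L ^ 2 = (t * L) * (t * L) := by ring
        _ ≤ m * m' := mul_le_mul htm htm' (by positivity) hm0
    exact ba_ar3 hκ hκ8 hθ3 hu (lt_of_lt_of_le (by positivity) hu) hSS0 hSMSS hErSS

end Pool.Agent.H23.MTP
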